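import Pool.Agent.Lib.PntAP.WI

/-!
# The prime number theorem in arithmetic progressions (fixed modulus)

For `q ≥ 1` and a unit `a : ZMod q`:
* `psi_ap`      : `(∑ n ≤ x, n ≡ a, Λ n) / x → 1 / φ q`
* `theta_ap`    : `(∑ p ≤ x, p ≡ a, log p) / x → 1 / φ q`
* `pi_ap`       : `π(x; q, a) * log x / x → 1 / φ q`
* `pi_ap_li`    : `π(x; q, a) / ∫_2^x dt / log t → 1 / φ q`
* `theta_ap_interval`, `pi_ap_interval` : the same on `(x, (1+δ) x]`, limit `δ / φ q`
* `li_asymp`    : `(∫_2^x dt / log t) * log x / x → 1`.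
-/

namespace Pool.Agent.Lib.PntAP

open Real MeasureTheory Set Filter Topology

variable {q : ℕ} [NeZero q]

open scoped ArithmeticFunction in
/-- `ψ(x; q, a)` -/
noncomputable def psiAP (a : ZMod q) (x : ℝ) : ℝ :=
  ∑ n ∈ (Finset.Icc 1 ⌊x⌋₊).filter (fun n : ℕ => (n : ZMod q) = a), ArithmeticFunction.vonMangoldt n

/-- `θ(x; q, a)` -/
noncomputable def thetaAP (a : ZMod q) (x : ℝ) : ℝ :=
  ∑ p ∈ (Finset.Icc 1 ⌊x⌋₊).filter (fun p : ℕ => p.Prime ∧ (p : ZMod q) = a), Real.log p

/-- `π(x; q, a)` -/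
noncomputable def piAP (a : ZMod q) (x : ℝ) : ℝ :=
  (((Finset.Icc 1 ⌊x⌋₊).filter (fun p : ℕ => p.Prime ∧ (p : ZMod q) = a)).card : ℝ)

theorem psi_ap {a : ZMod q} (ha : IsUnit a) :
    Tendsto (fun x : ℝ => psiAP a x / x) atTop (𝓝 (1 / (q.totient : ℝ))) := by
  have hB : ∀ n : ℕ, ∑ k ∈ Finset.Icc 1 n, ArithmeticFunction.vonMangoldt.residueClass a k
      ≤ (Real.log 4 + 4) * n := by
    intro n
    have h1 := Chebyshev.psi_le_const_mul_self (x := (n : ℝ)) (Nat.cast_nonneg n)
    refine le_trans ?_ h1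
    unfold Chebyshev.psi
    rw [Nat.floor_natCast]
    have : Finset.Ioc 0 n = Finset.Icc 1 n := rfl
    rw [this]
    apply Finset.sum_le_sum
    intro k _
    exact ArithmeticFunction.vonMangoldt.residueClass_le a k
  have h := wiener_ikehara (ArithmeticFunction.vonMangoldt.residueClass a)
    (ArithmeticFunction.vonMangoldt.residueClass_nonneg a) (c := 1 / (q.totient : ℝ))
    (by positivity) hB (ArithmeticFunction.vonMangoldt.LFunctionResidueClassAux a)
    (ArithmeticFunction.vonMangoldt.continuousOn_LFunctionResidueClassAux a) ?_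
  · refine h.congr ?_
    intro x
    congr 1
    unfold psiAP
    rw [Finset.sum_filter]
    apply Finset.sum_congr rfl
    intro k _
    simp only [ArithmeticFunction.vonMangoldt.residueClass, Set.indicator_apply,
      Set.mem_ofPred_eq]
  · intro s hs
    rw [ArithmeticFunction.vonMangoldt.eqOn_LFunctionResidueClassAux ha hs]
    push_cast
    rw [one_div]

omit [NeZero q] in
theorem psi_sub_theta_nonneg (a : ZMod q) (x : ℝ) :
    0 ≤ psiAP a x - thetaAP a x ∧
      psiAP a x - thetaAP a x ≤ Chebyshev.psi x - Chebyshev.theta x := by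
  have h1 : psiAP a x - thetaAP a x = ∑ n ∈ Finset.Ioc 0 ⌊x⌋₊ with ¬ n.Prime,
      if (n : ZMod q) = a then ArithmeticFunction.vonMangoldt n else 0 := by
    unfold psiAP thetaAP
    have : Finset.Icc 1 ⌊x⌋₊ = Finset.Ioc 0 ⌊x⌋₊ := rfl
    rw [this, Finset.sum_filter, Finset.sum_filter, Finset.sum_filter, ← Finset.sum_sub_distrib]
    apply Finset.sum_congr rfl
    intro n _
    by_cases h1 : n.Prime <;> by_cases h2 : (n : ZMod q) = a <;>
      simp [h1, h2, ArithmeticFunction.vonMangoldt_apply_prime]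
  rw [h1, Chebyshev.psi_sub_theta_eq_sum_not_prime]
  constructor
  · apply Finset.sum_nonneg
    intro n _
    split_ifs
    · exact ArithmeticFunction.vonMangoldt_nonneg
    · exact le_rfl
  · apply Finset.sum_le_sum
    intro n _
    split_ifs
    · exact le_rfl
    · exact ArithmeticFunction.vonMangoldt_nonneg

theorem theta_ap {a : ZMod q} (ha : IsUnit a) :
    Tendsto (fun x : ℝ => thetaAP a x / x) atTop (𝓝 (1 / (q.totient : ℝ))) := by
  obtain ⟨C, hC⟩ := Chebyshev.psi_sub_theta_le_mul_sqrt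
  have h1 : Tendsto (fun x : ℝ => (psiAP a x - thetaAP a x) / x) atTop (𝓝 0) := by
    have h2 : Tendsto (fun x : ℝ => C * (1 / √x)) atTop (𝓝 (C * 0)) := by
      apply Tendsto.const_mul
      simp_rw [one_div]
      exact tendsto_inv_atTop_zero.comp Real.tendsto_sqrt_atTop
    rw [mul_zero] at h2
    apply squeeze_zero' _ _ h2
    · filter_upwards [eventually_gt_atTop 0] with x hx
      exact div_nonneg (psi_sub_theta_nonneg a x).1 hx.le
    · filter_upwards [eventually_gt_atTop 0] with x hx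
      have h3 := (psi_sub_theta_nonneg a x).2.trans (hC x)
      rw [div_le_iff₀ hx]
      refine h3.trans (le_of_eq ?_)
      have h4 : x = √x * √x := (Real.mul_self_sqrt hx.le).symm
      have h5 : √x ≠ 0 := (Real.sqrt_pos.mpr hx).ne'
      calc C * √x = C * (1 / √x) * (√x * √x) := by field_simp
        _ = _ := by rw [← h4]
  have h6 := (psi_ap ha).sub h1
  rw [sub_zero] at h6
  refine h6.congr ?_
  intro x
  ring

omit [NeZero q] in
theorem piAP_le (a : ZMod q) {x y : ℝ} (hy : 1 < y) :
    piAP a x ≤ y + thetaAP a x / Real.log y := by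
  have hly : 0 < Real.log y := Real.log_pos hy
  have h1 : piAP a x = ∑ p ∈ (Finset.Icc 1 ⌊x⌋₊).filter (fun p : ℕ => p.Prime ∧ (p : ZMod q) = a), (1 : ℝ) := by
    unfold piAP
    rw [Finset.sum_const, nsmul_eq_mul, mul_one]
  have h2 : ∀ p ∈ (Finset.Icc 1 ⌊x⌋₊).filter (fun p : ℕ => p.Prime ∧ (p : ZMod q) = a),
      (1 : ℝ) ≤ (if (p : ℝ) ≤ y then 1 else 0) + Real.log p / Real.log y := by
    intro p hp
    rw [Finset.mem_filter, Finset.mem_Icc] at hp
    have hp1 : (1 : ℝ) ≤ p := by exact_mod_cast hp.1.1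
    split_ifs with h
    · have : 0 ≤ Real.log p / Real.log y := div_nonneg (Real.log_nonneg hp1) hly.le
      linarith
    · push Not at h
      have : 1 ≤ Real.log p / Real.log y := by
        rw [one_le_div hly]
        exact Real.log_le_log (by linarith) h.le
      linarith
  rw [h1]
  refine (Finset.sum_le_sum h2).trans ?_
  rw [Finset.sum_add_distrib]
  apply add_le_add
  · rw [← Finset.sum_filter, Finset.sum_const, nsmul_eq_mul, mul_one]
    have h3 : (((Finset.Icc 1 ⌊x⌋₊).filter (fun p : ℕ => p.Prime ∧ (p : ZMod q) = a)).filter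
        (fun p : ℕ => (p : ℝ) ≤ y)).card ≤ (Finset.Icc 1 ⌊y⌋₊).card := by
      apply Finset.card_le_card
      intro p hp
      rw [Finset.mem_filter, Finset.mem_filter, Finset.mem_Icc] at hp
      rw [Finset.mem_Icc]
      exact ⟨hp.1.1.1, Nat.le_floor hp.2⟩
    rw [Nat.card_Icc] at h3
    have h4 : ((⌊y⌋₊ + 1 - 1 : ℕ) : ℝ) ≤ y := by
      simp only [add_tsub_cancel_right]
      exact Nat.floor_le (by linarith)
    exact le_trans (by exact_mod_cast h3) h4
  · rw [← Finset.sum_div]
    exact le_rfl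

omit [NeZero q] in
theorem thetaAP_le (a : ZMod q) {x : ℝ} (hx : 1 ≤ x) :
    thetaAP a x ≤ piAP a x * Real.log x := by
  unfold thetaAP piAP
  rw [← nsmul_eq_mul]
  apply Finset.sum_le_card_nsmul
  intro p hp
  rw [Finset.mem_filter, Finset.mem_Icc] at hp
  apply Real.log_le_log
  · exact_mod_cast hp.1.1
  · exact (Nat.cast_le.mpr hp.1.2).trans (Nat.floor_le (by linarith))

omit [NeZero q] in
theorem piAP_nonneg (a : ZMod q) (x : ℝ) : 0 ≤ piAP a x := Nat.cast_nonneg _

theorem pi_ap {a : ZMod q} (ha : IsUnit a) :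
    Tendsto (fun x : ℝ => piAP a x * Real.log x / x) atTop (𝓝 (1 / (q.totient : ℝ))) := by
  have hθ := theta_ap ha
  set c : ℝ := 1 / (q.totient : ℝ) with hc
  have hc0 : 0 ≤ c := by positivity
  -- `π(x) log x / x - θ(x)/x ≥ 0` and small
  have key : ∀ ε : ℝ, 0 < ε → ε < 1 → ∀ᶠ x : ℝ in atTop,
      piAP a x * Real.log x / x ≤ ε + (thetaAP a x / x) / (1 - ε) := by
    intro ε hε hε1
    have h1 : Tendsto (fun x : ℝ => Real.log x / x ^ ε) atTop (𝓝 0) :=
      (isLittleO_log_rpow_atTop hε).tendsto_div_nhds_zero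
    filter_upwards [h1.eventually (gt_mem_nhds hε), eventually_gt_atTop 1] with x hx1 hx
    have hx0 : (0 : ℝ) < x := by linarith
    have hlx : 0 < Real.log x := Real.log_pos hx
    have hy : 1 < x ^ (1 - ε) := Real.one_lt_rpow hx (by linarith)
    have h2 := piAP_le a (x := x) hy
    rw [Real.log_rpow hx0] at h2
    have h3 : piAP a x * Real.log x / x
        ≤ (x ^ (1 - ε) + thetaAP a x / ((1 - ε) * Real.log x)) * Real.log x / x := by
      gcongr
    refine h3.trans ?_
    have h4 : (x ^ (1 - ε) + thetaAP a x / ((1 - ε) * Real.log x)) * Real.log x / x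
        = Real.log x / x ^ ε + (thetaAP a x / x) / (1 - ε) := by
      rw [Real.rpow_sub hx0, Real.rpow_one]
      have : x ^ ε ≠ 0 := (Real.rpow_pos_of_pos hx0 _).ne'
      have : 1 - ε ≠ 0 := by linarith
      field_simp
    rw [h4]
    linarith
  have lowb : ∀ᶠ x : ℝ in atTop, thetaAP a x / x ≤ piAP a x * Real.log x / x := by
    filter_upwards [eventually_gt_atTop 1] with x hx
    have : (0 : ℝ) < x := by linarith
    gcongr
    exact thetaAP_le a hx.le
  rw [tendsto_order]
  constructor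
  · intro b hb
    filter_upwards [hθ.eventually (lt_mem_nhds hb), lowb] with x h1 h2
    linarith
  · intro b hb
    obtain ⟨ε, hε, hε1, hε2⟩ : ∃ ε : ℝ, 0 < ε ∧ ε < 1 ∧ ε + c / (1 - ε) < b := by
      have h1 : Tendsto (fun ε : ℝ => ε + c / (1 - ε)) (𝓝[>] 0) (𝓝 (0 + c / (1 - 0))) := by
        apply Tendsto.mono_left _ nhdsWithin_le_nhds
        apply ContinuousAt.tendsto
        apply ContinuousAt.add continuousAt_id
        apply ContinuousAt.div continuousAt_const (by fun_prop) (by norm_num)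
      have h2 : 0 + c / (1 - 0) < b := by simpa using hb
      have h3 : ∀ᶠ ε : ℝ in 𝓝[>] 0, 0 < ε := self_mem_nhdsWithin
      have h3' : ∀ᶠ ε : ℝ in 𝓝[>] 0, ε < 1 :=
        nhdsWithin_le_nhds (gt_mem_nhds (show (0 : ℝ) < 1 by norm_num))
      obtain ⟨ε, h4, h5, h6⟩ := ((h1.eventually (gt_mem_nhds h2)).and (h3.and h3')).exists
      exact ⟨ε, h5, h6, h4⟩
    have h5 : Tendsto (fun x : ℝ => ε + (thetaAP a x / x) / (1 - ε)) atTop
        (𝓝 (ε + c / (1 - ε))) := (hθ.div_const _).const_add _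
    filter_upwards [h5.eventually (gt_mem_nhds hε2), key ε hε hε1] with x h6 h7
    linarith

/-- `li x ~ x / log x` -/
theorem li_asymp : Tendsto (fun x : ℝ => (∫ t in (2 : ℝ)..x, 1 / Real.log t) * Real.log x / x)
    atTop (𝓝 1) := by
  have h1 : ∀ x : ℝ, 2 ≤ x → ∫ t in (2 : ℝ)..x, 1 / Real.log t
      = x / Real.log x - 2 / Real.log 2 + ∫ t in (2 : ℝ)..x, 1 / Real.log t ^ 2 := by
    intro x hx
    have hi2 : IntervalIntegrable (fun t : ℝ => 1 / Real.log t ^ 2) volume 2 x :=
      Chebyshev.intervalIntegrable_one_div_log_sq (by norm_num) (by linarith)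
    have hi1 : IntervalIntegrable (fun t : ℝ => 1 / Real.log t) volume 2 x := by
      apply ContinuousOn.intervalIntegrable
      intro t ht
      rw [uIcc_of_le hx] at ht
      have h1 : t ≠ 0 := by linarith [ht.1]
      have h2 : Real.log t ≠ 0 := (Real.log_pos (by linarith [ht.1])).ne'
      exact ContinuousAt.continuousWithinAt (by fun_prop (disch := assumption))
    have h2 := intervalIntegral.integral_eq_sub_of_hasDerivAt (a := 2) (b := x)
      (f := fun t : ℝ => t / Real.log t) (f' := fun t : ℝ => 1 / Real.log t - 1 / Real.log t ^ 2)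
      ?_ (hi1.sub hi2)
    · rw [intervalIntegral.integral_sub hi1 hi2] at h2
      linarith
    · intro t ht
      rw [uIcc_of_le hx] at ht
      have h1 : t ≠ 0 := by linarith [ht.1]
      have h2 : Real.log t ≠ 0 := (Real.log_pos (by linarith [ht.1])).ne'
      have h3 := (hasDerivAt_id t).div (Real.hasDerivAt_log h1) h2
      refine h3.congr_deriv ?_
      simp only [id]
      field_simp
  have h2 : Tendsto (fun x : ℝ => (∫ t in (2 : ℝ)..x, 1 / Real.log t ^ 2) * Real.log x / x)
      atTop (𝓝 0) := by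
    have h3 := Chebyshev.integral_one_div_log_sq_isBigO
    have h4 : (fun x : ℝ => (∫ t in (2 : ℝ)..x, 1 / Real.log t ^ 2) * (Real.log x / x))
        =O[atTop] (fun x : ℝ => (x / Real.log x ^ 2) * (Real.log x / x)) :=
      h3.mul (Asymptotics.isBigO_refl _ _)
    have h5 : Tendsto (fun x : ℝ => (x / Real.log x ^ 2) * (Real.log x / x)) atTop (𝓝 0) := by
      refine (tendsto_inv_atTop_zero.comp Real.tendsto_log_atTop).congr' ?_
      filter_upwards [eventually_gt_atTop 1] with x hx
      have : x ≠ 0 := by linarith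
      have : Real.log x ≠ 0 := (Real.log_pos hx).ne'
      simp only [Function.comp_apply]
      field_simp
    have h6 := h4.trans_tendsto h5
    refine h6.congr ?_
    intro x
    ring
  have h3 : Tendsto (fun x : ℝ => Real.log x / x) atTop (𝓝 0) := by
    have := (isLittleO_log_rpow_atTop (r := 1) (by norm_num)).tendsto_div_nhds_zero
    simpa using this
  have h4 : Tendsto (fun x : ℝ => 1 - 2 / Real.log 2 * (Real.log x / x)
      + (∫ t in (2 : ℝ)..x, 1 / Real.log t ^ 2) * Real.log x / x) atTop (𝓝 (1 - 2 / Real.log 2 * 0 + 0)) :=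
    ((h3.const_mul _).const_sub 1).add h2
  simp only [mul_zero, sub_zero, add_zero] at h4
  refine h4.congr' ?_
  filter_upwards [eventually_ge_atTop 2] with x hx
  rw [h1 x hx]
  have : x ≠ 0 := by linarith
  have : Real.log x ≠ 0 := (Real.log_pos (by linarith)).ne'
  field_simp

theorem pi_ap_li {a : ZMod q} (ha : IsUnit a) :
    Tendsto (fun x : ℝ => piAP a x / ∫ t in (2 : ℝ)..x, 1 / Real.log t) atTop
      (𝓝 (1 / (q.totient : ℝ))) := by
  have h := (pi_ap ha).div li_asymp one_ne_zero
  rw [div_one] at h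
  refine h.congr' ?_
  filter_upwards [eventually_gt_atTop 1] with x hx
  have h1 : x ≠ 0 := by linarith
  have h2 : Real.log x ≠ 0 := (Real.log_pos hx).ne'
  simp only [Pi.div_apply]
  rw [div_div_div_cancel_right₀ h1, mul_div_mul_right _ _ h2]

theorem theta_ap_interval {a : ZMod q} (ha : IsUnit a) {δ : ℝ} (hδ : 0 < δ) :
    Tendsto (fun x : ℝ => (thetaAP a ((1 + δ) * x) - thetaAP a x) / x) atTop
      (𝓝 (δ / (q.totient : ℝ))) := by
  have h1 := theta_ap ha
  have h2 : Tendsto (fun x : ℝ => (1 + δ) * x) atTop atTop :=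
    tendsto_id.const_mul_atTop (by linarith)
  have h3 := (((h1.comp h2).const_mul (1 + δ)).sub h1)
  have h4 : (1 + δ) * (1 / (q.totient : ℝ)) - 1 / (q.totient : ℝ) = δ / (q.totient : ℝ) := by ring
  rw [h4] at h3
  refine h3.congr' ?_
  filter_upwards [eventually_gt_atTop 0] with x hx
  simp only [Function.comp_apply]
  have : 1 + δ ≠ 0 := by linarith
  field_simp

theorem pi_ap_interval {a : ZMod q} (ha : IsUnit a) {δ : ℝ} (hδ : 0 < δ) :
    Tendsto (fun x : ℝ => (piAP a ((1 + δ) * x) - piAP a x) * Real.log x / x) atTop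
      (𝓝 (δ / (q.totient : ℝ))) := by
  have h1 := pi_ap ha
  have h2 : Tendsto (fun x : ℝ => (1 + δ) * x) atTop atTop :=
    tendsto_id.const_mul_atTop (by linarith)
  -- log x / log ((1+δ)x) → 1
  have hl : Tendsto (fun x : ℝ => Real.log x / Real.log ((1 + δ) * x)) atTop (𝓝 1) := by
    have h5 : Tendsto (fun x : ℝ => 1 / (Real.log (1 + δ) / Real.log x + 1)) atTop
        (𝓝 (1 / (0 + 1))) := by
      apply Tendsto.div tendsto_const_nhds _ (by norm_num)
      apply Tendsto.add_const
      exact Tendsto.const_div_atTop Real.tendsto_log_atTop _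
    simp only [zero_add, div_one] at h5
    refine h5.congr' ?_
    filter_upwards [eventually_gt_atTop 1] with x hx
    have h6 : Real.log x ≠ 0 := (Real.log_pos hx).ne'
    have h7 : Real.log ((1 + δ) * x) = Real.log (1 + δ) + Real.log x :=
      Real.log_mul (by linarith) (by linarith)
    have h8 : 0 < Real.log (1 + δ) := Real.log_pos (by linarith)
    have h9 : 0 < Real.log x := Real.log_pos hx
    rw [h7]
    field_simp
  have h3 := ((((h1.comp h2).const_mul (1 + δ)).mul hl).sub h1)
  have h4 : (1 + δ) * (1 / (q.totient : ℝ)) * 1 - 1 / (q.totient : ℝ) = δ / (q.totient : ℝ) := by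
    ring
  rw [h4] at h3
  refine h3.congr' ?_
  filter_upwards [eventually_gt_atTop 1] with x hx
  simp only [Function.comp_apply]
  have h0 : x ≠ 0 := by linarith
  have h5 : 1 + δ ≠ 0 := by linarith
  have h6 : Real.log ((1 + δ) * x) ≠ 0 := (Real.log_pos (by nlinarith)).ne'
  field_simp

end Pool.Agent.Lib.PntAP
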