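import Pool.Agent.Lib.PntAP.Tauber

/-!
Wiener-Ikehara theorem for nonnegative arithmetic functions with a Chebyshev bound.
-/

namespace Pool.Agent.Lib.PntAP

open Real MeasureTheory Set Filter Topology

/-- change of variables `x = e^u` -/
theorem integral_exp_change (F : ℝ → ℂ) :
    ∫ x in Ioi (1 : ℝ), F x = ∫ u in Ioi (0 : ℝ), (Real.exp u : ℂ) * F (Real.exp u) := by
  have himg : Real.exp '' (Ioi 0) = Ioi 1 := by
    ext x
    constructor
    · rintro ⟨u, hu, rfl⟩
      exact Real.one_lt_exp_iff.mpr hu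
    · intro hx
      have hx' : (1 : ℝ) < x := hx
      exact ⟨Real.log x, Real.log_pos hx', Real.exp_log (by linarith)⟩
  rw [← himg, integral_image_eq_integral_abs_deriv_smul measurableSet_Ioi
    (fun x _ => (Real.hasDerivAt_exp x).hasDerivWithinAt) Real.exp_injective.injOn]
  congr 1
  ext u
  rw [abs_of_pos (Real.exp_pos _), Complex.real_smul]

/-- **Wiener-Ikehara** for nonnegative arithmetic functions with a Chebyshev bound. -/
theorem wiener_ikehara (f : ℕ → ℝ) (hf : ∀ n, 0 ≤ f n) {c B : ℝ} (hc : 0 ≤ c)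
    (hB : ∀ n : ℕ, ∑ k ∈ Finset.Icc 1 n, f k ≤ B * n)
    (F : ℂ → ℂ) (hF : ContinuousOn F {s | 1 ≤ s.re})
    (hFL : ∀ s : ℂ, 1 < s.re → F s = LSeries (fun n => (f n : ℂ)) s - c / (s - 1)) :
    Tendsto (fun x : ℝ => (∑ k ∈ Finset.Icc 1 ⌊x⌋₊, f k) / x) atTop (𝓝 c) := by
  set A : ℝ → ℝ := fun x => ∑ k ∈ Finset.Icc 1 ⌊x⌋₊, f k with hA
  have hB0 : 0 ≤ B := by
    have := hB 1
    simp at this
    exact (hf 1).trans this
  have hA0 : ∀ x, 0 ≤ A x := fun x => Finset.sum_nonneg (fun k _ => hf k)
  have hAmono : Monotone A := by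
    intro x y hxy
    apply Finset.sum_le_sum_of_subset_of_nonneg
    · exact Finset.Icc_subset_Icc_right (Nat.floor_le_floor hxy)
    · intro k _ _
      exact hf k
  have hAB : ∀ x, 0 ≤ x → A x ≤ B * x := by
    intro x hx
    refine (hB _).trans ?_
    exact mul_le_mul_of_nonneg_left (Nat.floor_le hx) hB0
  set H : ℝ → ℝ := fun u => A (Real.exp u) * Real.exp (-u) with hH
  have hHm : Measurable H := by
    apply Measurable.mul
    · exact hAmono.measurable.comp Real.measurable_exp
    · fun_prop
  have hHB : ∀ u, 0 ≤ H u ∧ H u ≤ B := by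
    intro u
    refine ⟨mul_nonneg (hA0 _) (Real.exp_pos _).le, ?_⟩
    have h1 := hAB (Real.exp u) (Real.exp_pos _).le
    calc H u ≤ B * Real.exp u * Real.exp (-u) := mul_le_mul_of_nonneg_right h1 (Real.exp_pos _).le
      _ = B := by rw [mul_assoc, ← Real.exp_add]; simp
  have hslow : ∀ u v, 0 ≤ u → u ≤ v → H u * Real.exp (-(v - u)) ≤ H v := by
    intro u v _ huv
    have h1 : A (Real.exp u) ≤ A (Real.exp v) := hAmono (Real.exp_le_exp.mpr huv)
    have h2 : H u * Real.exp (-(v - u)) = A (Real.exp u) * Real.exp (-v) := by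
      rw [hH]
      simp only
      rw [mul_assoc, ← Real.exp_add]
      congr 2
      ring
    rw [h2]
    exact mul_le_mul_of_nonneg_right h1 (Real.exp_pos _).le
  -- the integral representation
  have hrep : ∀ z : ℂ, 0 < z.re → (F (1 + z) - c) / (1 + z)
      = ∫ u in Ioi (0 : ℝ), ((H u - c : ℝ) : ℂ) * Complex.exp (-z * u) := by
    intro z hz
    set s : ℂ := 1 + z with hs
    have hsre : 1 < s.re := by rw [hs]; simp [hz]
    have hs0 : s ≠ 0 := by
      intro h
      rw [h] at hsre
      simp at hsre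
      linarith
    have hz0 : z ≠ 0 := by
      rintro rfl
      simp at hz
    have hO : (fun n : ℕ => ∑ k ∈ Finset.Icc 1 n, f k) =O[atTop] fun n : ℕ => (n : ℝ) ^ (1 : ℝ) := by
      apply Asymptotics.IsBigO.of_bound B
      filter_upwards with n
      rw [Real.rpow_one, Real.norm_of_nonneg (Finset.sum_nonneg (fun k _ => hf k)),
        Real.norm_of_nonneg (Nat.cast_nonneg n)]
      exact hB n
    have h1 := LSeries_eq_mul_integral_of_nonneg f zero_le_one hsre hO hf
    rw [integral_exp_change] at h1
    have h2 : ∀ u : ℝ, (Real.exp u : ℂ) * ((∑ k ∈ Finset.Icc 1 ⌊Real.exp u⌋₊, (f k : ℂ)) *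
        ((Real.exp u : ℝ) : ℂ) ^ (-(s + 1))) = (H u : ℂ) * Complex.exp (-z * u) := by
      intro u
      have h3 : ((Real.exp u : ℝ) : ℂ) ^ (-(s + 1)) = Complex.exp (-(s + 1) * u) := by
        rw [Complex.cpow_def_of_ne_zero (by exact_mod_cast (Real.exp_pos u).ne'),
          ← Complex.ofReal_log (Real.exp_pos u).le, Real.log_exp]
        congr 1
        ring
      rw [h3, hH, hA]
      push_cast
      have h4 : Complex.exp (u : ℂ) * Complex.exp (-(s + 1) * u)
          = Complex.exp (-(u : ℂ)) * Complex.exp (-z * u) := by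
        rw [← Complex.exp_add, ← Complex.exp_add]
        congr 1
        rw [hs]
        ring
      linear_combination (∑ k ∈ Finset.Icc 1 ⌊Real.exp u⌋₊, (f k : ℂ)) * h4
    simp_rw [h2] at h1
    -- integrability
    have hexpi : Integrable (fun u : ℝ => Complex.exp (-z * u)) (volume.restrict (Ioi 0)) := by
      have h5 : Integrable (fun u : ℝ => Real.exp (-z.re * u)) (volume.restrict (Ioi 0)) :=
        integrable_exp_neg hz
      refine h5.mono' (by apply Continuous.aestronglyMeasurable; fun_prop) ?_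
      filter_upwards with u
      rw [Complex.norm_exp]
      simp
    have hHi : Integrable (fun u : ℝ => (H u : ℂ) * Complex.exp (-z * u))
        (volume.restrict (Ioi 0)) := by
      refine Integrable.bdd_mul (c := B) hexpi ?_ ?_
      · exact (Complex.measurable_ofReal.comp hHm).aestronglyMeasurable
      · filter_upwards with u
        rw [Complex.norm_real, Real.norm_of_nonneg (hHB u).1]
        exact (hHB u).2
    have h6 : ∫ u in Ioi (0 : ℝ), ((H u - c : ℝ) : ℂ) * Complex.exp (-z * u)
        = (∫ u in Ioi (0 : ℝ), (H u : ℂ) * Complex.exp (-z * u))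
          - c * ∫ u in Ioi (0 : ℝ), Complex.exp (-z * u) := by
      rw [← integral_const_mul, ← integral_sub hHi (hexpi.const_mul _)]
      congr 1
      ext u
      push_cast
      ring
    have h7 : ∫ u in Ioi (0 : ℝ), Complex.exp (-z * u) = 1 / z := by
      have := integral_exp_mul_complex_Ioi (a := -z) (by simpa using hz) 0
      rw [this]
      simp
    rw [h6, h7, hFL s hsre, h1]
    have h8 : s - 1 = z := by rw [hs]; ring
    rw [h8]
    field_simp
    rw [hs]
    ring
  have hg : ContinuousOn (fun z : ℂ => (F (1 + z) - c) / (1 + z)) {z | 0 ≤ z.re} := by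
    apply ContinuousOn.div
    · apply ContinuousOn.sub _ continuousOn_const
      apply hF.comp (by fun_prop)
      intro z hz
      simp only [mem_ofPred_eq] at hz ⊢
      simpa using hz
    · fun_prop
    · intro z hz h
      have h2 : (1 + z).re = 0 := by rw [h]; simp
      simp only [mem_ofPred_eq] at hz
      simp at h2
      linarith
  have hT := tauber hHm hc hHB hslow hg hrep
  have h9 := hT.comp Real.tendsto_log_atTop
  refine h9.congr' ?_
  filter_upwards [eventually_gt_atTop (0 : ℝ)] with x hx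
  simp only [Function.comp_apply, hH]
  rw [Real.exp_log hx, Real.exp_neg, Real.exp_log hx]
  rfl

end Pool.Agent.Lib.PntAP
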