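import Mathlib

/-!
The Fejer kernel: `ker v = ∫ t, tri t * exp (i t v)`, where `tri t = max 0 (1 - |t|)`.
-/

namespace Pool.Agent.Lib.PntAP

open Real MeasureTheory Set Filter Topology

/-- the triangle function -/
noncomputable def tri (t : ℝ) : ℝ := max 0 (1 - |t|)

/-- the Fejer kernel -/
noncomputable def ker (v : ℝ) : ℝ := if v = 0 then 1 else 2 * (1 - Real.cos v) / v ^ 2

theorem tri_nonneg (t : ℝ) : 0 ≤ tri t := le_max_left _ _

theorem tri_le_one (t : ℝ) : tri t ≤ 1 := max_le zero_le_one (by linarith [abs_nonneg t])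

theorem tri_continuous : Continuous tri := by
  unfold tri; fun_prop

theorem tri_zero {t : ℝ} (ht : t ∉ Icc (-1 : ℝ) 1) : tri t = 0 := by
  unfold tri
  apply max_eq_left
  by_contra h
  push Not at h
  exact ht (abs_le.mp (by linarith))

theorem tri_integrable : Integrable tri := by
  apply tri_continuous.integrable_of_hasCompactSupport
  exact HasCompactSupport.intro isCompact_Icc (fun t ht => tri_zero ht)

theorem ker_nonneg (v : ℝ) : 0 ≤ ker v := by
  unfold ker
  split_ifs
  · norm_num
  · have := Real.cos_le_one v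
    apply div_nonneg (by linarith) (by positivity)

theorem ker_le_one (v : ℝ) : ker v ≤ 1 := by
  unfold ker
  split_ifs with h
  · norm_num
  · have := Real.one_sub_sq_div_two_le_cos (x := v)
    rw [div_le_one (by positivity)]
    linarith

theorem ker_le_sq {v : ℝ} (hv : v ≠ 0) : ker v ≤ 4 / v ^ 2 := by
  unfold ker
  rw [if_neg hv]
  have := Real.neg_one_le_cos v
  gcongr
  linarith

theorem ker_ge {v : ℝ} (hv : |v| ≤ 1) : 4 / π ^ 2 ≤ ker v := by
  unfold ker
  have hpi : (3 : ℝ) < π := Real.pi_gt_three
  split_ifs with h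
  · rw [div_le_one (by positivity)]
    nlinarith
  · have h2 : Real.cos v ≤ 1 - 2 / π ^ 2 * v ^ 2 :=
      Real.cos_le_one_sub_mul_cos_sq (by linarith)
    rw [le_div_iff₀ (by positivity)]
    have : 4 / π ^ 2 * v ^ 2 = 2 * (2 / π ^ 2 * v ^ 2) := by ring
    linarith

theorem ker_measurable : Measurable ker := by
  unfold ker
  refine Measurable.ite (measurableSet_singleton 0) measurable_const ?_
  fun_prop

theorem ker_bound (v : ℝ) : ker v ≤ 8 * (1 + v ^ 2)⁻¹ := by
  by_cases h : v ^ 2 ≤ 7
  · refine (ker_le_one v).trans ?_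
    rw [← div_eq_mul_inv, le_div_iff₀ (by positivity)]
    linarith
  · push Not at h
    have hv : v ≠ 0 := by
      rintro rfl
      norm_num at h
    refine (ker_le_sq hv).trans ?_
    rw [← div_eq_mul_inv, div_le_div_iff₀ (by positivity) (by positivity)]
    nlinarith

theorem ker_integrable : Integrable ker := by
  refine (integrable_inv_one_add_sq.const_mul 8).mono' ker_measurable.aestronglyMeasurable ?_
  filter_upwards with v
  rw [Real.norm_of_nonneg (ker_nonneg v)]
  exact ker_bound v

theorem integral_tri_exp (v : ℝ) :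
    ∫ t : ℝ, (tri t : ℂ) * Complex.exp ((t * v : ℝ) * Complex.I) = (ker v : ℂ) := by
  have h1 : ∫ t : ℝ, (tri t : ℂ) * Complex.exp ((t * v : ℝ) * Complex.I)
      = ∫ t in (-1 : ℝ)..1, (tri t : ℂ) * Complex.exp ((t * v : ℝ) * Complex.I) := by
    rw [intervalIntegral.integral_of_le (by norm_num), ← integral_Icc_eq_integral_Ioc]
    symm
    apply setIntegral_eq_integral_of_forall_compl_eq_zero
    intro t ht
    rw [tri_zero ht]
    simp
  have hint : ∀ a b : ℝ, IntervalIntegrable
      (fun t : ℝ => (tri t : ℂ) * Complex.exp ((t * v : ℝ) * Complex.I)) volume a b := by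
    intro a b
    apply Continuous.intervalIntegrable
    have := tri_continuous
    fun_prop
  rw [h1, ← intervalIntegral.integral_add_adjacent_intervals (hint (-1) 0) (hint 0 1)]
  have hA : ∫ t in (-1 : ℝ)..0, (tri t : ℂ) * Complex.exp ((t * v : ℝ) * Complex.I)
      = ∫ t in (-1 : ℝ)..0, (1 + (t : ℂ)) * Complex.exp ((v * Complex.I) * t) := by
    apply intervalIntegral.integral_congr
    intro t ht
    rw [uIcc_of_le (by norm_num)] at ht
    have : tri t = 1 + t := by
      unfold tri
      rw [abs_of_nonpos ht.2]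
      rw [max_eq_right] <;> linarith [ht.1]
    simp only [this]
    push_cast
    congr 2
    ring
  have hB : ∫ t in (0 : ℝ)..1, (tri t : ℂ) * Complex.exp ((t * v : ℝ) * Complex.I)
      = ∫ t in (0 : ℝ)..1, (1 - (t : ℂ)) * Complex.exp ((v * Complex.I) * t) := by
    apply intervalIntegral.integral_congr
    intro t ht
    rw [uIcc_of_le (by norm_num)] at ht
    have : tri t = 1 - t := by
      unfold tri
      rw [abs_of_nonneg ht.1]
      rw [max_eq_right]; linarith [ht.2]
    simp only [this]
    push_cast
    congr 2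
    ring
  rw [hA, hB]
  by_cases hv : v = 0
  · subst hv
    simp only [Complex.ofReal_zero, zero_mul, Complex.exp_zero, mul_one]
    have hA' : ∫ t in (-1 : ℝ)..0, (1 + (t : ℂ)) = 1 / 2 := by
      have : ∀ t : ℝ, (1 + (t : ℂ)) = ((1 + t : ℝ) : ℂ) := by intro t; push_cast; ring
      simp_rw [this]
      rw [intervalIntegral.integral_ofReal]
      have e : ∫ x in (-1 : ℝ)..0, (1 + x) = 1 / 2 := by
        rw [intervalIntegral.integral_add (by simp) (by simp)]
        simp
        norm_num
      rw [e]
      norm_num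
    have hB' : ∫ t in (0 : ℝ)..1, (1 - (t : ℂ)) = 1 / 2 := by
      have : ∀ t : ℝ, (1 - (t : ℂ)) = ((1 - t : ℝ) : ℂ) := by intro t; push_cast; ring
      simp_rw [this]
      rw [intervalIntegral.integral_ofReal]
      have e : ∫ x in (0 : ℝ)..1, (1 - x) = 1 / 2 := by
        rw [intervalIntegral.integral_sub (by simp) (by simp)]
        simp
        norm_num
      rw [e]
      norm_num
    rw [hA', hB']
    unfold ker
    norm_num
  · set c : ℂ := v * Complex.I with hc
    have hc0 : c ≠ 0 := by
      rw [hc]
      simp [hv]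
    have hexp : ∀ t : ℝ, HasDerivAt (fun t : ℝ => Complex.exp (c * t)) (Complex.exp (c * t) * c) t := by
      intro t
      have h : HasDerivAt (fun t : ℝ => c * (t : ℂ)) (c * 1) t :=
        (Complex.ofRealCLM.hasDerivAt (x := t)).const_mul c
      simpa using h.cexp
    have hid : ∀ t : ℝ, HasDerivAt (fun t : ℝ => (t : ℂ)) 1 t := fun t =>
      Complex.ofRealCLM.hasDerivAt (x := t)
    have hA' : ∫ t in (-1 : ℝ)..0, (1 + (t : ℂ)) * Complex.exp (c * t)
        = 1 / c - 1 / c ^ 2 + Complex.exp (-c) / c ^ 2 := by
      have := intervalIntegral.integral_eq_sub_of_hasDerivAt (a := (-1 : ℝ)) (b := 0)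
        (f := fun t : ℝ => (1 + (t : ℂ)) * Complex.exp (c * t) / c - Complex.exp (c * t) / c ^ 2)
        (f' := fun t : ℝ => (1 + (t : ℂ)) * Complex.exp (c * t)) ?_ ?_
      · rw [this]
        push_cast
        simp
      · intro t _
        have h := ((((hid t).const_add 1).mul (hexp t)).div_const c).sub ((hexp t).div_const (c ^ 2))
        refine h.congr_deriv ?_
        field_simp
        ring
      · apply Continuous.intervalIntegrable
        fun_prop
    have hB' : ∫ t in (0 : ℝ)..1, (1 - (t : ℂ)) * Complex.exp (c * t)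
        = Complex.exp c / c ^ 2 - 1 / c - 1 / c ^ 2 := by
      have := intervalIntegral.integral_eq_sub_of_hasDerivAt (a := (0 : ℝ)) (b := 1)
        (f := fun t : ℝ => (1 - (t : ℂ)) * Complex.exp (c * t) / c + Complex.exp (c * t) / c ^ 2)
        (f' := fun t : ℝ => (1 - (t : ℂ)) * Complex.exp (c * t)) ?_ ?_
      · rw [this]
        push_cast
        simp
        ring
      · intro t _
        have h := ((((hid t).const_sub 1).mul (hexp t)).div_const c).add ((hexp t).div_const (c ^ 2))
        refine h.congr_deriv ?_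
        field_simp
        ring
      · apply Continuous.intervalIntegrable
        fun_prop
    rw [hA', hB']
    unfold ker
    rw [if_neg hv]
    have h2 : Complex.exp c + Complex.exp (-c) = 2 * Complex.cos v := by
      rw [Complex.cos, hc]
      simp
      ring
    have h3 : c ^ 2 = -(v : ℂ) ^ 2 := by
      rw [hc, mul_pow, Complex.I_sq]
      ring
    have hv' : (v : ℂ) ≠ 0 := by exact_mod_cast hv
    push_cast
    calc 1 / c - 1 / c ^ 2 + Complex.exp (-c) / c ^ 2 + (Complex.exp c / c ^ 2 - 1 / c - 1 / c ^ 2)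
        = (Complex.exp c + Complex.exp (-c) - 2) / c ^ 2 := by ring
      _ = _ := by
        rw [h2, h3]
        field_simp
        ring

end Pool.Agent.Lib.PntAP
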