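import Pool.Agent.Lib.PntAP.Kernel

/-!
Wiener-Ikehara type Tauberian theorem for a bounded, slowly decreasing function.
-/

namespace Pool.Agent.Lib.PntAP

open Real MeasureTheory Set Filter Topology

section

variable {H : ℝ → ℝ} {c B : ℝ}

theorem abs_sub_le (hc : 0 ≤ c) (hB : ∀ u, 0 ≤ H u ∧ H u ≤ B) (u : ℝ) : |H u - c| ≤ B + c := by
  obtain ⟨h1, h2⟩ := hB u
  rw [abs_le]
  constructor <;> linarith

theorem integrable_exp_neg {δ : ℝ} (hδ : 0 < δ) :
    Integrable (fun u : ℝ => Real.exp (-δ * u)) (volume.restrict (Ioi 0)) :=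
  integrableOn_exp_mul_Ioi (by linarith) 0

/-- Fubini -/
theorem swap (hm : Measurable H) (hc : 0 ≤ c) (hB : ∀ u, 0 ≤ H u ∧ H u ≤ B)
    {g : ℂ → ℂ} (hgH : ∀ z : ℂ, 0 < z.re →
      g z = ∫ u in Ioi (0 : ℝ), ((H u - c : ℝ) : ℂ) * Complex.exp (-z * u))
    {δ l y : ℝ} (hδ : 0 < δ) :
    ∫ t : ℝ, (tri t : ℂ) * Complex.exp ((t * (l * y) : ℝ) * Complex.I) * g ((δ : ℂ) + (l * t : ℝ) * Complex.I)
      = ∫ u in Ioi (0 : ℝ), (((H u - c) * Real.exp (-δ * u) * ker (l * (y - u)) : ℝ) : ℂ) := by
  have h1 : ∀ t : ℝ, (tri t : ℂ) * Complex.exp ((t * (l * y) : ℝ) * Complex.I)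
      * g ((δ : ℂ) + (l * t : ℝ) * Complex.I)
      = ∫ u in Ioi (0 : ℝ), (Complex.exp ((t * (l * (y - u)) : ℝ) * Complex.I)) *
        ((tri t : ℂ) * (((H u - c) * Real.exp (-δ * u) : ℝ) : ℂ)) := by
    intro t
    rw [hgH _ (by simp [hδ]), ← integral_const_mul]
    congr 1
    ext u
    have : Complex.exp (-((δ : ℂ) + (l * t : ℝ) * Complex.I) * u)
        = (Real.exp (-δ * u) : ℂ) * Complex.exp (-((l * t * u : ℝ) : ℂ) * Complex.I) := by
      rw [Complex.ofReal_exp, ← Complex.exp_add]
      congr 1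
      push_cast
      ring
    rw [this]
    have h2 : Complex.exp ((t * (l * (y - u)) : ℝ) * Complex.I)
        = Complex.exp ((t * (l * y) : ℝ) * Complex.I) * Complex.exp (-((l * t * u : ℝ) : ℂ) * Complex.I) := by
      rw [← Complex.exp_add]
      congr 1
      push_cast
      ring
    rw [h2]
    push_cast
    ring
  simp_rw [h1]
  have hint : Integrable (Function.uncurry fun (t u : ℝ) =>
      (Complex.exp ((t * (l * (y - u)) : ℝ) * Complex.I)) *
        ((tri t : ℂ) * (((H u - c) * Real.exp (-δ * u) : ℝ) : ℂ)))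
      (volume.prod (volume.restrict (Ioi (0 : ℝ)))) := by
    have hI1 : Integrable (fun t : ℝ => (tri t : ℂ)) volume := tri_integrable.ofReal
    have hI2 : Integrable (fun u : ℝ => (((H u - c) * Real.exp (-δ * u) : ℝ) : ℂ))
        (volume.restrict (Ioi (0 : ℝ))) := by
      apply Integrable.ofReal
      refine Integrable.bdd_mul (c := B + c) (integrable_exp_neg hδ)
        (hm.sub_const c).aestronglyMeasurable ?_
      filter_upwards with u
      exact abs_sub_le hc hB u
    refine Integrable.bdd_mul (c := 1) (hI1.mul_prod hI2) ?_ ?_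
    · apply Continuous.aestronglyMeasurable
      fun_prop
    · filter_upwards with p
      rw [Complex.norm_exp_ofReal_mul_I]
  rw [integral_integral_swap hint]
  congr 1
  ext u
  have : ∀ t : ℝ, Complex.exp ((t * (l * (y - u)) : ℝ) * Complex.I) *
        ((tri t : ℂ) * (((H u - c) * Real.exp (-δ * u) : ℝ) : ℂ))
      = (((H u - c) * Real.exp (-δ * u) : ℝ) : ℂ) *
        ((tri t : ℂ) * Complex.exp ((t * (l * (y - u)) : ℝ) * Complex.I)) := by
    intro t; ring
  simp_rw [this]
  rw [integral_const_mul, integral_tri_exp]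
  push_cast
  ring

theorem integrable_right (hm : Measurable H) (hc : 0 ≤ c) (hB : ∀ u, 0 ≤ H u ∧ H u ≤ B)
    {l : ℝ} (hl : 0 < l) (y : ℝ) :
    Integrable (fun u : ℝ => (H u - c) * ker (l * (y - u))) := by
  have h1 : Integrable (fun u : ℝ => ker (l * (y - u))) := by
    have := (ker_integrable.comp_mul_left' hl.ne').comp_sub_left y
    exact this
  refine Integrable.bdd_mul (c := B + c) h1 (hm.sub_const c).aestronglyMeasurable ?_
  filter_upwards with u
  exact abs_sub_le hc hB u

/-- the limit `δ → 0` -/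
theorem main_identity (hm : Measurable H) (hc : 0 ≤ c) (hB : ∀ u, 0 ≤ H u ∧ H u ≤ B)
    {g : ℂ → ℂ} (hg : ContinuousOn g {z | 0 ≤ z.re}) (hgH : ∀ z : ℂ, 0 < z.re →
      g z = ∫ u in Ioi (0 : ℝ), ((H u - c : ℝ) : ℂ) * Complex.exp (-z * u))
    {l : ℝ} (hl : 0 < l) (y : ℝ) :
    ∫ t : ℝ, (tri t : ℂ) * Complex.exp ((t * (l * y) : ℝ) * Complex.I) * g ((l * t : ℝ) * Complex.I)
      = ((∫ u in Ioi (0 : ℝ), (H u - c) * ker (l * (y - u)) : ℝ) : ℂ) := by
  -- continuity of the path
  have hcont : ∀ t : ℝ, Tendsto (fun δ : ℝ => g ((δ : ℂ) + (l * t : ℝ) * Complex.I)) (𝓝[>] 0)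
      (𝓝 (g ((l * t : ℝ) * Complex.I))) := by
    intro t
    have h0 : ((l * t : ℝ) * Complex.I : ℂ) ∈ {z : ℂ | 0 ≤ z.re} := by simp
    have h1 := hg _ h0
    refine h1.tendsto.comp ?_
    rw [tendsto_nhdsWithin_iff]
    constructor
    · have h2 : Tendsto (fun δ : ℝ => (δ : ℂ) + (l * t : ℝ) * Complex.I) (𝓝 0)
          (𝓝 (((0 : ℝ) : ℂ) + (l * t : ℝ) * Complex.I)) := by
        apply Continuous.tendsto
        fun_prop
      simp only [Complex.ofReal_zero, zero_add] at h2
      exact h2.mono_left nhdsWithin_le_nhds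
    · filter_upwards [self_mem_nhdsWithin] with δ hδ
      have : (0 : ℝ) < δ := hδ
      simp [this.le]
  -- bound of g on a compact set
  obtain ⟨M, hM⟩ : ∃ M : ℝ, ∀ z : ℂ, 0 ≤ z.re → z.re ≤ 1 → |z.im| ≤ l → ‖g z‖ ≤ M := by
    have hK : IsCompact (Icc (0 : ℝ) 1 ×ℂ Icc (-l) l) := isCompact_Icc.reProdIm isCompact_Icc
    obtain ⟨M, hM⟩ := hK.exists_bound_of_continuousOn (hg.mono (s := {z | 0 ≤ z.re}) (by
      intro z hz
      rw [Complex.mem_reProdIm] at hz
      exact hz.1.1))
    exact ⟨M, fun z h1 h2 h3 => hM z (by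
      rw [Complex.mem_reProdIm]
      exact ⟨⟨h1, h2⟩, abs_le.mp h3⟩)⟩
  have hL : Tendsto (fun δ : ℝ => ∫ t : ℝ, (tri t : ℂ) * Complex.exp ((t * (l * y) : ℝ) * Complex.I)
      * g ((δ : ℂ) + (l * t : ℝ) * Complex.I)) (𝓝[>] 0)
      (𝓝 (∫ t : ℝ, (tri t : ℂ) * Complex.exp ((t * (l * y) : ℝ) * Complex.I)
      * g ((l * t : ℝ) * Complex.I))) := by
    apply tendsto_integral_filter_of_dominated_convergence (fun t => M * tri t)
    · filter_upwards [self_mem_nhdsWithin] with δ hδ
      have hδ' : (0 : ℝ) < δ := hδ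
      apply Continuous.aestronglyMeasurable
      have hgc : Continuous (fun t : ℝ => g ((δ : ℂ) + (l * t : ℝ) * Complex.I)) := by
        refine hg.comp_continuous (by fun_prop) ?_
        intro t
        simp [hδ'.le]
      have htr := tri_continuous
      exact (Continuous.mul (by fun_prop) (by fun_prop)).mul hgc
    · have h1 : ∀ᶠ δ : ℝ in 𝓝[>] 0, δ ≤ 1 := by
        apply nhdsWithin_le_nhds
        exact eventually_le_nhds (by norm_num)
      filter_upwards [self_mem_nhdsWithin, h1] with δ hδ hδ1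
      have hδ' : (0 : ℝ) < δ := hδ
      filter_upwards with t
      rw [norm_mul, norm_mul, Complex.norm_exp_ofReal_mul_I, mul_one, Complex.norm_real,
        Real.norm_of_nonneg (tri_nonneg t), mul_comm]
      by_cases ht : t ∈ Icc (-1 : ℝ) 1
      · apply mul_le_mul_of_nonneg_right _ (tri_nonneg t)
        apply hM
        · simp [hδ'.le]
        · simpa using hδ1
        · have : |t| ≤ 1 := abs_le.mpr ht
          simp only [Complex.add_im, Complex.ofReal_im, Complex.mul_im, Complex.ofReal_re,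
            Complex.I_im, mul_one, Complex.I_re, mul_zero, add_zero, zero_add]
          rw [abs_mul, abs_of_pos hl]
          nlinarith
      · rw [tri_zero ht]
        simp
    · exact tri_integrable.const_mul M
    · filter_upwards with t
      exact (hcont t).const_mul _
  have hR : Tendsto (fun δ : ℝ => ∫ u in Ioi (0 : ℝ),
      (((H u - c) * Real.exp (-δ * u) * ker (l * (y - u)) : ℝ) : ℂ)) (𝓝[>] 0)
      (𝓝 (∫ u in Ioi (0 : ℝ), (((H u - c) * ker (l * (y - u)) : ℝ) : ℂ))) := by
    apply tendsto_integral_filter_of_dominated_convergence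
      (fun u => ‖(H u - c) * ker (l * (y - u))‖)
    · filter_upwards with δ
      apply Measurable.aestronglyMeasurable
      have := ker_measurable
      fun_prop
    · filter_upwards [self_mem_nhdsWithin] with δ hδ
      have hδ' : (0 : ℝ) < δ := hδ
      filter_upwards [ae_restrict_mem measurableSet_Ioi] with u hu
      have hu' : (0 : ℝ) < u := hu
      rw [Complex.norm_real]
      have : (H u - c) * Real.exp (-δ * u) * ker (l * (y - u))
          = Real.exp (-δ * u) * ((H u - c) * ker (l * (y - u))) := by ring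
      rw [this, norm_mul, Real.norm_of_nonneg (Real.exp_pos _).le]
      have h1 : Real.exp (-δ * u) ≤ 1 := by
        rw [Real.exp_le_one_iff]
        nlinarith
      nlinarith [norm_nonneg ((H u - c) * ker (l * (y - u)))]
    · exact (integrable_right hm hc hB hl y).norm.integrableOn
    · filter_upwards with u
      have h1 : Tendsto (fun δ : ℝ => (((H u - c) * Real.exp (-δ * u) * ker (l * (y - u)) : ℝ) : ℂ))
          (𝓝 0) (𝓝 ((((H u - c) * Real.exp (-0 * u) * ker (l * (y - u)) : ℝ) : ℂ))) := by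
        apply Continuous.tendsto
        fun_prop
      simp only [neg_zero, zero_mul, Real.exp_zero, mul_one] at h1
      exact h1.mono_left nhdsWithin_le_nhds
  have heq : (fun δ : ℝ => ∫ t : ℝ, (tri t : ℂ) * Complex.exp ((t * (l * y) : ℝ) * Complex.I)
      * g ((δ : ℂ) + (l * t : ℝ) * Complex.I)) =ᶠ[𝓝[>] 0] (fun δ : ℝ => ∫ u in Ioi (0 : ℝ),
      (((H u - c) * Real.exp (-δ * u) * ker (l * (y - u)) : ℝ) : ℂ)) := by
    filter_upwards [self_mem_nhdsWithin] with δ hδ
    exact swap hm hc hB hgH hδ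
  have hR' := hR.congr' heq.symm
  have := tendsto_nhds_unique hL hR'
  rw [this]
  exact integral_ofReal

/-- Riemann-Lebesgue -/
theorem tendsto_zero (hm : Measurable H) (hc : 0 ≤ c) (hB : ∀ u, 0 ≤ H u ∧ H u ≤ B)
    {g : ℂ → ℂ} (hg : ContinuousOn g {z | 0 ≤ z.re}) (hgH : ∀ z : ℂ, 0 < z.re →
      g z = ∫ u in Ioi (0 : ℝ), ((H u - c : ℝ) : ℂ) * Complex.exp (-z * u))
    {l : ℝ} (hl : 0 < l) :
    Tendsto (fun y : ℝ => ∫ u in Ioi (0 : ℝ), (H u - c) * ker (l * (y - u))) atTop (𝓝 0) := by
  have h1 := Real.tendsto_integral_exp_smul_cocompact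
    (fun t : ℝ => (tri t : ℂ) * g ((l * t : ℝ) * Complex.I))
  have h2 : Tendsto (fun y : ℝ => -(l * y / (2 * π))) atTop (cocompact ℝ) := by
    refine Tendsto.mono_right ?_ atBot_le_cocompact
    rw [tendsto_neg_atBot_iff]
    apply Tendsto.atTop_div_const (by positivity)
    exact tendsto_id.const_mul_atTop hl
  have h3 := h1.comp h2
  have h4 : Tendsto (fun y : ℝ => ((∫ u in Ioi (0 : ℝ), (H u - c) * ker (l * (y - u)) : ℝ) : ℂ))
      atTop (𝓝 0) := by
    refine h3.congr ?_
    intro y
    rw [← main_identity hm hc hB hg hgH hl y]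
    simp only [Function.comp_apply]
    congr 1
    ext t
    rw [Circle.smul_def, Real.fourierChar_apply, smul_eq_mul]
    have : (2 * π * (-(t * -(l * y / (2 * π)))) : ℝ) = t * (l * y) := by
      field_simp
    rw [this]
    ring
  have h5 := (Complex.continuous_re.tendsto 0).comp h4
  rw [Complex.zero_re] at h5
  refine h5.congr ?_
  intro y
  simp only [Function.comp_apply, Complex.ofReal_re]

theorem ker_window {η l : ℝ} (hη : 0 < η) (hl : 0 < l) (w : ℝ) :
    (if |w| ≤ η then 0 else ker (l * w)) ≤ (4 * (1 + 1 / η ^ 2) / l ^ 2) * (1 + w ^ 2)⁻¹ := by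
  split_ifs with h
  · positivity
  · push Not at h
    have hw : w ≠ 0 := by
      rintro rfl
      simp at h
      linarith
    have hlw : l * w ≠ 0 := mul_ne_zero hl.ne' hw
    refine (ker_le_sq hlw).trans ?_
    have hw2 : η ^ 2 ≤ w ^ 2 := by
      rw [← sq_abs w]
      gcongr
    have hw3 : (1 + w ^ 2) / w ^ 2 ≤ 1 + 1 / η ^ 2 := by
      rw [add_div, div_self (by positivity)]
      have : 1 / w ^ 2 ≤ 1 / η ^ 2 := one_div_le_one_div_of_le (by positivity) hw2
      linarith
    have h5 : (4 * (1 + 1 / η ^ 2) / l ^ 2) * (1 + w ^ 2)⁻¹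
        ≥ (4 * ((1 + w ^ 2) / w ^ 2) / l ^ 2) * (1 + w ^ 2)⁻¹ := by gcongr
    refine le_trans (le_of_eq ?_) h5
    field_simp

/-- if a function is `≥ ε` on `[y-η, y+η]` and `≥ -C` elsewhere then its mean against the kernel
is bounded from below. -/
theorem lower_mean {F : ℝ → ℝ} {ε C η l y : ℝ} (hε : 0 < ε) (hC : 0 ≤ C) (hη : 0 < η) (hl : 0 < l)
    (hlη : 1 / l ≤ η) (hy : η < y)
    (h1 : ∀ u, |y - u| ≤ η → ε ≤ F u) (h2 : ∀ u, -C ≤ F u)
    (hint : Integrable (fun u : ℝ => F u * ker (l * (y - u)))) :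
    ε * (4 / π ^ 2) * (2 / l) - C * (4 * (1 + 1 / η ^ 2) / l ^ 2) * π
      ≤ ∫ u in Ioi (0 : ℝ), F u * ker (l * (y - u)) := by
  set A : ℝ := C * (4 * (1 + 1 / η ^ 2) / l ^ 2) with hA
  have hA0 : 0 ≤ A := by positivity
  set G : ℝ → ℝ := fun u => (Icc (y - 1 / l) (y + 1 / l)).indicator (fun _ => ε * (4 / π ^ 2)) u
    - A * (1 + (y - u) ^ 2)⁻¹ with hG
  have hI1 : Integrable (fun u : ℝ => (1 + (y - u) ^ 2)⁻¹) :=
    integrable_inv_one_add_sq.comp_sub_left y
  have hI2 : Integrable ((Icc (y - 1 / l) (y + 1 / l)).indicator (fun _ : ℝ => ε * (4 / π ^ 2))) := by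
    rw [integrable_indicator_iff measurableSet_Icc]
    exact integrableOn_const (by simp) ENNReal.coe_ne_top
  have hGi : Integrable G := hI2.sub (hI1.const_mul A)
  have hle : ∀ u, G u ≤ F u * ker (l * (y - u)) := by
    intro u
    have hk := ker_nonneg (l * (y - u))
    have hpos : 0 ≤ A * (1 + (y - u) ^ 2)⁻¹ := by positivity
    by_cases hu : |y - u| ≤ η
    · have hF := h1 u hu
      simp only [hG]
      by_cases hu2 : u ∈ Icc (y - 1 / l) (y + 1 / l)
      · rw [indicator_of_mem hu2]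
        have hab : |y - u| ≤ 1 / l := by
          rw [abs_le]
          constructor <;> linarith [hu2.1, hu2.2]
        have : |l * (y - u)| ≤ 1 := by
          rw [abs_mul, abs_of_pos hl]
          calc l * |y - u| ≤ l * (1 / l) := by gcongr
            _ = 1 := by field_simp
        have hk2 := ker_ge this
        have : ε * (4 / π ^ 2) ≤ F u * ker (l * (y - u)) := by
          apply mul_le_mul hF hk2 (by positivity) (hε.le.trans hF)
        linarith
      · rw [indicator_of_notMem hu2]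
        have : 0 ≤ F u * ker (l * (y - u)) := mul_nonneg (hε.le.trans hF) hk
        linarith
    · have hu2 : u ∉ Icc (y - 1 / l) (y + 1 / l) := by
        intro hu2
        apply hu
        rw [abs_le]
        constructor <;> linarith [hu2.1, hu2.2]
      simp only [hG]
      rw [indicator_of_notMem hu2]
      have h3 := ker_window hη hl (y - u)
      rw [if_neg hu] at h3
      have h4 : A * (1 + (y - u) ^ 2)⁻¹
          = C * ((4 * (1 + 1 / η ^ 2) / l ^ 2) * (1 + (y - u) ^ 2)⁻¹) := by
        rw [hA]; ring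
      have h5 : C * ker (l * (y - u)) ≤ A * (1 + (y - u) ^ 2)⁻¹ := by
        rw [h4]
        exact mul_le_mul_of_nonneg_left h3 hC
      have h6 : -C * ker (l * (y - u)) ≤ F u * ker (l * (y - u)) :=
        mul_le_mul_of_nonneg_right (h2 u) hk
      linarith
  have h3 : ∫ u in Ioi (0 : ℝ), G u ≤ ∫ u in Ioi (0 : ℝ), F u * ker (l * (y - u)) :=
    setIntegral_mono hGi.integrableOn hint.integrableOn hle
  refine le_trans ?_ h3
  simp only [hG]
  rw [integral_sub hI2.integrableOn (hI1.const_mul A).integrableOn]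
  have h4 : ∫ u in Ioi (0 : ℝ), (Icc (y - 1 / l) (y + 1 / l)).indicator (fun _ => ε * (4 / π ^ 2)) u
      = ε * (4 / π ^ 2) * (2 / l) := by
    have hsub : Ioi (0 : ℝ) ∩ Icc (y - 1 / l) (y + 1 / l) = Icc (y - 1 / l) (y + 1 / l) := by
      apply inter_eq_right.mpr
      intro u hu
      have := hu.1
      simp only [mem_Ioi]
      linarith
    have hl0 : 0 < 1 / l := by positivity
    rw [setIntegral_indicator measurableSet_Icc, hsub, setIntegral_const, Real.volume_real_Icc_of_le (by linarith)]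
    simp only [smul_eq_mul]
    ring
  have h5 : ∫ u in Ioi (0 : ℝ), A * (1 + (y - u) ^ 2)⁻¹ ≤ A * π := by
    rw [integral_const_mul]
    apply mul_le_mul_of_nonneg_left _ hA0
    rw [← integral_univ_inv_one_add_sq, ← integral_sub_left_eq_self (fun x : ℝ => (1 + x ^ 2)⁻¹) volume y]
    apply setIntegral_le_integral hI1
    filter_upwards with u
    positivity
  linarith

theorem exists_l {ε C η : ℝ} (hε : 0 < ε) (hC : 0 ≤ C) (hη : 0 < η) :
    ∃ l : ℝ, 0 < l ∧ 1 / l ≤ η ∧
      0 < ε * (4 / π ^ 2) * (2 / l) - C * (4 * (1 + 1 / η ^ 2) / l ^ 2) * π := by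
  set a : ℝ := ε * (4 / π ^ 2) * 2 with ha
  set b : ℝ := C * (4 * (1 + 1 / η ^ 2)) * π with hb
  have ha0 : 0 < a := by positivity
  have hb0 : 0 ≤ b := by positivity
  refine ⟨1 / η + b / a + 1, by positivity, ?_, ?_⟩
  · rw [div_le_iff₀ (by positivity)]
    have : 0 ≤ η * (b / a + 1) := by positivity
    have h2 : η * (1 / η) = 1 := by field_simp
    nlinarith
  · set l : ℝ := 1 / η + b / a + 1 with hl
    have hl0 : 0 < l := by positivity
    have h1 : b < a * l := by
      have : a * l = a / η + b + a := by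
        rw [hl]; field_simp
      rw [this]
      have : 0 < a / η := by positivity
      linarith
    have h2 : ε * (4 / π ^ 2) * (2 / l) - C * (4 * (1 + 1 / η ^ 2) / l ^ 2) * π
        = (a * l - b) / l ^ 2 := by
      rw [ha, hb]
      field_simp
    rw [h2]
    apply div_pos (by linarith) (by positivity)

/-- **Tauberian theorem** (Wiener-Ikehara with a Chebyshev bound). -/
theorem tauber (hm : Measurable H) (hc : 0 ≤ c) (hB : ∀ u, 0 ≤ H u ∧ H u ≤ B)
    (hslow : ∀ u v, 0 ≤ u → u ≤ v → H u * Real.exp (-(v - u)) ≤ H v)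
    {g : ℂ → ℂ} (hg : ContinuousOn g {z | 0 ≤ z.re}) (hgH : ∀ z : ℂ, 0 < z.re →
      g z = ∫ u in Ioi (0 : ℝ), ((H u - c : ℝ) : ℂ) * Complex.exp (-z * u)) :
    Tendsto H atTop (𝓝 c) := by
  have hB0 : 0 ≤ B := (hB 0).1.trans (hB 0).2
  have hC0 : 0 ≤ B + c := by positivity
  have upper : ∀ ε : ℝ, 0 < ε → ∀ᶠ y in atTop, H y < c + 2 * ε := by
    intro ε hε
    by_contra hcon
    rw [not_eventually] at hcon
    -- choose the window
    obtain ⟨η, hη, hη2⟩ : ∃ η : ℝ, 0 < η ∧ c + ε ≤ (c + 2 * ε) * Real.exp (-(2 * η)) := by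
      have h1 : Tendsto (fun η : ℝ => (c + 2 * ε) * Real.exp (-(2 * η))) (𝓝[>] 0)
          (𝓝 ((c + 2 * ε) * Real.exp (-(2 * 0)))) := by
        apply Tendsto.mono_left _ nhdsWithin_le_nhds
        apply Continuous.tendsto
        fun_prop
      have h2 : c + ε < (c + 2 * ε) * Real.exp (-(2 * 0)) := by
        simp; linarith
      have h3 := (h1.eventually (lt_mem_nhds h2)).and self_mem_nhdsWithin
      obtain ⟨η, h4, h5⟩ := h3.exists
      exact ⟨η, h5, h4.le⟩
    obtain ⟨l, hl, hlη, hκ⟩ := exists_l hε hC0 hη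
    have h1 := tendsto_zero hm hc hB hg hgH hl
    have h2 : Tendsto (fun y : ℝ => y + η) atTop atTop := tendsto_atTop_add_const_right _ _ tendsto_id
    have h3 := (h1.comp h2).eventually (gt_mem_nhds hκ)
    obtain ⟨y, hy1, hy2, hy3⟩ := (hcon.and_eventually (h3.and (eventually_gt_atTop 0))).exists
    push Not at hy1
    have h4 := lower_mean (F := fun u => H u - c) (y := y + η) hε hC0 hη hl hlη (by linarith) ?_ ?_
      (integrable_right hm hc hB hl _)
    · simp only [Function.comp_apply] at hy2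
      linarith
    · intro u hu
      rw [abs_le] at hu
      have h5 := hslow y u hy3.le (by linarith [hu.2])
      have h6 : (c + 2 * ε) * Real.exp (-(2 * η)) ≤ H y * Real.exp (-(u - y)) := by
        apply mul_le_mul hy1 _ (Real.exp_pos _).le (hB y).1
        apply Real.exp_le_exp.mpr
        linarith [hu.1]
      linarith
    · intro u
      have := abs_le.mp (abs_sub_le hc hB u)
      linarith [this.1]
  have lower : ∀ ε : ℝ, 0 < ε → ∀ᶠ y in atTop, c - 2 * ε < H y := by
    intro ε hε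
    by_contra hcon
    rw [not_eventually] at hcon
    obtain ⟨η, hη, hη2⟩ : ∃ η : ℝ, 0 < η ∧ (c - 2 * ε) * Real.exp (2 * η) ≤ c - ε := by
      have h1 : Tendsto (fun η : ℝ => (c - 2 * ε) * Real.exp (2 * η)) (𝓝[>] 0)
          (𝓝 ((c - 2 * ε) * Real.exp (2 * 0))) := by
        apply Tendsto.mono_left _ nhdsWithin_le_nhds
        apply Continuous.tendsto
        fun_prop
      have h2 : (c - 2 * ε) * Real.exp (2 * 0) < c - ε := by
        simp; linarith
      have h3 := (h1.eventually (gt_mem_nhds h2)).and self_mem_nhdsWithin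
      obtain ⟨η, h4, h5⟩ := h3.exists
      exact ⟨η, h5, h4.le⟩
    obtain ⟨l, hl, hlη, hκ⟩ := exists_l hε hC0 hη
    have h1 := (tendsto_zero hm hc hB hg hgH hl).neg
    rw [neg_zero] at h1
    have h2 : Tendsto (fun y : ℝ => y - η) atTop atTop := tendsto_atTop_add_const_right _ _ tendsto_id
    have h3 := (h1.comp h2).eventually (gt_mem_nhds hκ)
    obtain ⟨y, hy1, hy2, hy3⟩ :=
      (hcon.and_eventually (h3.and (eventually_gt_atTop (2 * η)))).exists
    push Not at hy1
    have hint : Integrable (fun u : ℝ => (c - H u) * ker (l * (y - η - u))) := by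
      have := (integrable_right hm hc hB hl (y - η)).neg
      refine this.congr ?_
      filter_upwards with u
      simp only [Pi.neg_apply]
      ring
    have h4 := lower_mean (F := fun u => c - H u) (y := y - η) hε hC0 hη hl hlη (by linarith) ?_ ?_
      hint
    · simp only [Function.comp_apply] at hy2
      rw [← integral_neg] at hy2
      have h7 : ∫ u in Ioi (0 : ℝ), (c - H u) * ker (l * (y - η - u))
          = ∫ u in Ioi (0 : ℝ), -((H u - c) * ker (l * (y - η - u))) := by
        congr 1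
        ext u
        ring
      rw [h7] at h4
      linarith
    · intro u hu
      rw [abs_le] at hu
      have h5 := hslow u y (by linarith [hu.2]) (by linarith [hu.1])
      have h6 : H u ≤ H y * Real.exp (y - u) := by
        have h7 : H u * Real.exp (-(y - u)) * Real.exp (y - u) ≤ H y * Real.exp (y - u) :=
          mul_le_mul_of_nonneg_right h5 (Real.exp_pos _).le
        rwa [mul_assoc, ← Real.exp_add, neg_add_cancel, Real.exp_zero, mul_one] at h7
      have h8 : H y * Real.exp (y - u) ≤ (c - 2 * ε) * Real.exp (2 * η) := by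
        apply mul_le_mul hy1 _ (Real.exp_pos _).le ((hB y).1.trans hy1)
        apply Real.exp_le_exp.mpr
        linarith [hu.2]
      linarith
    · intro u
      have := abs_le.mp (abs_sub_le hc hB u)
      linarith [this.2]
  rw [Metric.tendsto_nhds]
  intro ε hε
  filter_upwards [upper (ε / 2) (by linarith), lower (ε / 2) (by linarith)] with y h1 h2
  rw [Real.dist_eq, abs_lt]
  constructor <;> linarith

end

end Pool.Agent.Lib.PntAP
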